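import Mathlib

/-! The tree lemma of the cofinality pattern theorem. -/

set_option autoImplicit false

open Cardinal Ordinal Set Filter

universe u

namespace Helper55.CP

/- PIECE TREE -/
theorem tree_lemma {ι : Type u} [DecidableEq ι] {κ : Cardinal.{u}} (h0 : ℵ₀ ≤ κ) (hι : #ι ≤ κ)
    (Free : Finset ι → Prop) (Good : Finset ι → Ordinal.{u} → Prop)
    (hG0 : ∀ j < (Order.succ κ).ord, Good ∅ j)
    (hGF : ∀ E j, Good E j → Free E)
    (s : Ordinal.{u} → Ordinal.{u}) (hs : ∀ j < (Order.succ κ).ord, s j < (Order.succ κ).ord)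
    (step : ∀ j₀ < (Order.succ κ).ord, ∀ j, s j₀ ≤ j → j < (Order.succ κ).ord → ∀ E, Good E j →
      ∃ j', j₀ ≤ j' ∧ j' < s j₀ ∧ ∃ y, y ∉ E ∧ Good (insert y E) j') :
    ∃ g : ℕ → ι, Function.Injective g ∧ ∀ n, Free ((Finset.range n).image g) := by
  set r : Finset ι → Finset ι → Prop := fun E' E => ∃ y, y ∉ E ∧ E' = insert y E ∧ Free E' with hr
  have hreg : (Order.succ κ).IsRegular := isRegular_succ h0
  have key : ∀ E, Acc r E → ∃ σ < (Order.succ κ).ord,
      ∀ j, σ ≤ j → j < (Order.succ κ).ord → ¬ Good E j := by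
    intro E hE
    induction hE with
    | intro E _ ih =>
      have h1 : ∀ y : ι, ∃ σ < (Order.succ κ).ord,
          ∀ j, σ ≤ j → j < (Order.succ κ).ord → y ∉ E → ¬ Good (insert y E) j := by
        intro y
        by_cases hy : y ∉ E ∧ Free (insert y E)
        · obtain ⟨σ, hσ, h2⟩ := ih (insert y E) ⟨y, hy.1, rfl, hy.2⟩
          exact ⟨σ, hσ, fun j hj hj2 _ => h2 j hj hj2⟩
        · refine ⟨0, ?_, fun j _ _ hyE hG => hy ⟨hyE, hGF _ _ hG⟩⟩
          exact (Cardinal.ord_pos.2 (lt_of_lt_of_le Cardinal.aleph0_pos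
            (h0.trans (Order.le_succ κ))))
      choose σ hσ hσ2 using h1
      have hj0 : (⨆ y, σ y) < (Order.succ κ).ord := by
        refine Ordinal.iSup_lt_of_lt_cof ?_ hσ
        rw [hreg.cof_ord]
        exact Order.lt_succ_of_le hι
      refine ⟨s (⨆ y, σ y), hs _ hj0, fun j hj hj2 hG => ?_⟩
      obtain ⟨j', h2, h3, y, hy, hG'⟩ := step _ hj0 j hj hj2 E hG
      exact hσ2 y j' ((Ordinal.le_iSup σ y).trans h2) (h3.trans (hs _ hj0)) hy hG'
  have hpos : 0 < (Order.succ κ).ord :=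
    (Cardinal.ord_pos.2 (lt_of_lt_of_le Cardinal.aleph0_pos (h0.trans (Order.le_succ κ))))
  have hnacc : ¬ Acc r ∅ := by
    intro h
    obtain ⟨σ, hσ, h2⟩ := key ∅ h
    exact h2 σ le_rfl hσ (hG0 σ hσ)
  obtain ⟨f, hf0, hf⟩ := not_acc_iff_exists_descending_chain.1 hnacc
  choose g hg1 hg2 hg3 using hf
  have him : ∀ n, (Finset.range n).image g = f n := by
    intro n
    induction n with
    | zero => rw [Finset.range_zero, Finset.image_empty, hf0]
    | succ n ih => rw [Finset.range_add_one, Finset.image_insert, ih, hg2]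
  refine ⟨g, ?_, ?_⟩
  · have h3 : ∀ m n, m < n → g m ≠ g n := by
      intro m n hmn h4
      apply hg1 n
      rw [← him n, ← h4]
      exact Finset.mem_image_of_mem g (Finset.mem_range.2 hmn)
    intro m n hmn
    rcases lt_trichotomy m n with h | h | h
    · exact absurd hmn (h3 m n h)
    · exact h
    · exact absurd hmn.symm (h3 n m h)
  · intro n
    rw [him]
    cases n with
    | zero =>
      rw [hf0]
      exact hGF ∅ 0 (hG0 0 hpos)
    | succ n => exact hg3 n

end Helper55.CP
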